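import Pool.Agent.V5helper20.FC.Stm
import Pool.Agent.N275.GP.Base
import Pool.Agent.N275.GP.PH
import Pool.Agent.N441.GP.Bas

set_option autoImplicit false

/-!
# Job VTX: bound of the number of vertices
-/

namespace Pool.Agent.V5helper23.FC

open Set Complex
open Pool.Agent.W780.PG (IsConvexPolygon region)
open Pool.Agent.N275.GP
open Pool.Agent.V5helper71.QB
open Pool.Agent.V5helper20.FC
open scoped Real

/-- at most three sides `a` have neighbours `a`, `a + 2` turning by at least `π`, unless there are four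
sides altogether -/
theorem card_le {m : ℕ} {q : Fin (m + 3) → ℂ} (hq : IsConvexPolygon q)
    (B : Finset (Fin (m + 3))) (hB : ∀ a, a ∈ B ↔ ¬ 0 < cr (nu q a) (nu q (a + 1 + 1)))
    (hcard : 4 ≤ B.card) : B = Finset.univ ∧ m = 1 := by
  classical
  obtain ⟨φ, hφ⟩ := exists_An hq 0
  set g : Fin (m + 3) → ℝ := fun a => φ (a.val + 2) - φ a.val with hg
  have hgpos : ∀ a, 0 < g a := fun a => sub_pos.2 (hφ.mono (by omega))
  have hgB : ∀ a ∈ B, π ≤ g a := by
    intro a ha
    rw [hB] at ha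
    by_contra h
    push Not at h
    apply ha
    have h1 := hφ.cr' a.val (a.val + 2)
    have e1 : (0 : Fin (m + 3)) + Fin.ofNat (m + 3) a.val = a := by
      have := add_fo (0 : Fin (m + 3)) a
      rwa [sub_zero] at this
    have e2 : (0 : Fin (m + 3)) + Fin.ofNat (m + 3) (a.val + 2) = a + 1 + 1 := by
      rw [fo_succ, fo_succ, ← add_assoc, ← add_assoc, e1]
    rw [e1, e2] at h1
    rw [h1]
    exact Real.sin_pos_of_pos_of_lt_pi (hgpos a) h
  have hsum : ∑ a, g a = 4 * π := by
    rw [hg, Fin.sum_univ_eq_sum_range (fun k => φ (k + 2) - φ k) (m + 3)]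
    have h1 : ∀ k ∈ Finset.range (m + 3), φ (k + 2) - φ k =
        (φ (k + 1 + 1) - φ (k + 1)) + (φ (k + 1) - φ k) := fun k _ => by ring
    rw [Finset.sum_congr rfl h1, Finset.sum_add_distrib, Finset.sum_range_sub,
      Finset.sum_range_sub (fun k => φ (k + 1))]
    have h2 := hφ.per 1
    have h3 := hφ.two_pi
    have e1 : m + 3 + 1 = 1 + (m + 3) := by ring
    rw [e1, h2, h3, hφ.zero]
    simp only [zero_add]
    ring
  have hBu : B = Finset.univ := by
    by_contra h
    obtain ⟨a, ha⟩ : ∃ a, a ∉ B := by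
      by_contra h2
      push Not at h2
      exact h (Finset.eq_univ_iff_forall.2 h2)
    have h1 : ∑ b ∈ insert a B, g b ≤ ∑ b, g b :=
      Finset.sum_le_sum_of_subset_of_nonneg (Finset.subset_univ _) fun i _ _ => (hgpos i).le
    rw [Finset.sum_insert ha, hsum] at h1
    have h2 : ∑ b ∈ B, π ≤ ∑ b ∈ B, g b := Finset.sum_le_sum hgB
    rw [Finset.sum_const, nsmul_eq_mul] at h2
    have h3 : (4 : ℝ) ≤ B.card := by exact_mod_cast hcard
    have h4 := mul_le_mul_of_nonneg_right h3 Real.pi_pos.le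
    have h5 := hgpos a
    linarith
  refine ⟨hBu, ?_⟩
  have h2 : ∑ b ∈ B, π ≤ ∑ b ∈ B, g b := Finset.sum_le_sum hgB
  have hc : B.card = m + 3 := by rw [hBu, Finset.card_univ, Fintype.card_fin]
  rw [hBu, hsum, Finset.sum_const, nsmul_eq_mul, Finset.card_univ, Fintype.card_fin] at h2
  have h3 : ((m + 3 : ℕ) : ℝ) ≤ 4 := le_of_mul_le_mul_right h2 Real.pi_pos
  have h4 : m + 3 ≤ 4 := by exact_mod_cast h3
  omega

theorem t_VTX : S_VTX := by
  classical
  intro n q δ hn hq hL
  set B : Finset (Fin (n + 3)) := Finset.univ.filter fun a => ¬ 0 < cr (nu q a) (nu q (a + 1 + 1))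
    with hBdef
  have hB : ∀ a, a ∈ B ↔ ¬ 0 < cr (nu q a) (nu q (a + 1 + 1)) := fun a => by
    rw [hBdef, Finset.mem_filter]; simp
  have hcard : B.card ≤ 3 := by
    by_contra h
    obtain ⟨hu, hm⟩ := card_le hq B hB (by omega)
    subst hm
    obtain ⟨a, b, ⟨hab1, hab2⟩, -, -⟩ := hL.ex
    have ha : a ∈ B := by rw [hu]; exact Finset.mem_univ _
    rw [hB] at ha
    have hb : b = a ∨ b = a + 1 ∨ b = a + 1 + 1 ∨ b + 1 = a := by
      clear hab1 hab2 ha
      revert a b
      decide
    rcases hb with rfl | rfl | rfl | rfl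
    · rw [cr_self] at hab2
      exact lt_irrefl _ hab2
    · exact hab1 rfl
    · exact ha hab2
    · have h1 := cr_next hq b
      rw [cr_comm] at h1
      linarith
  have key : ∀ a, a ∉ B → δ ≤ ln q (a + 1) := by
    intro a ha
    have h0 : 0 < cr (nu q a) (nu q (a + 1 + 1)) := by
      by_contra h
      exact ha ((hB a).2 h)
    have n1 : (1 : Fin (n + 3)).val = 1 := rfl
    have n2 : ((1 : Fin (n + 3)) + 1).val = 2 := by
      rw [Fin.val_add, n1, Nat.mod_eq_of_lt (by omega)]
    have e1 : a + 1 - a = 1 := add_sub_cancel_left _ _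
    have e2 : a + 1 + 1 - a = 1 + 1 := by rw [add_assoc, add_sub_cancel_left]
    have hne : a + 1 + 1 ≠ a + 1 := by
      intro h
      have h3 : (1 : Fin (n + 3)) = 0 := by
        have : a + 1 + 1 = a + 1 + 0 := by rw [h, add_zero]
        exact add_left_cancel this
      have h4 := congrArg Fin.val h3
      rw [n1] at h4
      have h5 : (0 : Fin (n + 3)).val = 0 := rfl
      omega
    have hsh : Sh (nu q) a (a + 1 + 1) := ⟨hne, h0⟩
    have hun : Un (∅ : Finset (Fin (n + 3))) a (a + 1 + 1) :=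
      ⟨a + 1, ⟨by rw [e1, n1]; omega, by rw [e1, e2, n1, n2]; omega⟩, Finset.notMem_empty _⟩
    refine (hL.lv.sh a _ hsh hun).trans ?_
    have h3 := (Pool.Agent.N441.GP.gd h_PH n q a (a + 1 + 1) hq hsh).2 (q (a + 1)) (q (a + 1 + 1))
      (co_next hq a).ge (fun i _ => ip_le_co hq i _) le_rfl (fun i _ => ip_le_co hq i _)
    rw [norm_sub_rev] at h3
    exact h3
  have hcomp : n ≤ (Finset.univ \ B).card := by
    rw [Finset.card_sdiff_of_subset (Finset.subset_univ _), Finset.card_univ, Fintype.card_fin]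
    omega
  have hln : ∀ i, 0 ≤ ln q i := fun i => norm_nonneg _
  have hsum : ∑ i, ln q (i + 1) = ∑ i, ln q i :=
    Fintype.sum_equiv (Equiv.addRight (1 : Fin (n + 3))) _ _ fun _ => rfl
  rw [← hsum]
  calc (n : ℝ) * δ ≤ ((Finset.univ \ B).card : ℝ) * δ :=
        mul_le_mul_of_nonneg_right (by exact_mod_cast hcomp) hL.lv.pos.le
    _ = ∑ i ∈ Finset.univ \ B, δ := by rw [Finset.sum_const, nsmul_eq_mul]
    _ ≤ ∑ i ∈ Finset.univ \ B, ln q (i + 1) :=
        Finset.sum_le_sum fun i hi => key i (Finset.mem_sdiff.1 hi).2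
    _ ≤ ∑ i, ln q (i + 1) :=
        Finset.sum_le_sum_of_subset_of_nonneg (Finset.subset_univ _) fun i _ _ => hln _

end Pool.Agent.V5helper23.FC
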